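import Pool.Agent.helper63.TI.SpecA

set_option autoImplicit false

namespace Pool.Agent.TI

open Polynomial NumberField Pool.Agent.GJ Pool.Agent.TK Pool.Agent.TQ Pool.Agent.TFQ Pool.Agent.TD Pool.Agent.AQ
open Pool.Agent.FJ (VT Om chiO IsFrobO rf rs)
open scoped TensorProduct

noncomputable section

theorem WCO_iota : Nonempty (Om →+* ℂ) := by
  have : Algebra.IsAlgebraic ℚ Om := AlgebraicClosure.isAlgebraic ℚ
  exact ⟨(IsAlgClosed.lift : Om →ₐ[ℚ] ℂ).toRingHom⟩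

theorem WCO_count : Countable Om := by
  rw [← Cardinal.mk_le_aleph0_iff]
  have h : Algebra.IsAlgebraic ℚ (AlgebraicClosure ℚ) := AlgebraicClosure.isAlgebraic ℚ
  refine (Algebra.IsAlgebraic.cardinalMk_le_max ℚ (AlgebraicClosure ℚ)).trans ?_
  simp

theorem WCO (hBGP : AQ.BGP_stmt) (hLDE : AQ.LDE_stmt) (hVF : TD.VF_stmt) (hNBK : TD.NBK_stmt) (hDD : GJ.DD_stmt) : WCO_stmt := by
  intro l _ hl2 D i hn
  obtain ⟨h1, -, -, h2⟩ := hBGP l l D
  refine ⟨h1, fun s hs ζ hζ r hr0 hrl => ?_⟩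
  have : IsDedekindDomain (CR Om l (D.μ i) (D.a i)) := hDD Om l (D.n i) (D.μ i) (D.a i)
  have : Countable Om := WCO_count
  obtain ⟨ι⟩ := WCO_iota
  obtain ⟨v, b, hb⟩ := hVF Om ι l (D.n i) l hl2 (by omega) (D.μ i) (D.a i) s hs
  have hsum := (hNBK Om l (D.n i) l (D.μ i) (D.a i)).2.2.2.1 s hs
  have hfr := (hLDE ℚ_[l] (PadicAlgCl l) (VA D l i) l (D.n i) (Fact.out : l.Prime) (zA D l i s) v b hb hsum ζ hζ).1 r hr0 hrl
  have : Module.Finite (PadicAlgCl l) (ES D l i s ζ r) :=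
    Module.finite_of_finrank_pos (by rw [hfr]; omega)
  refine ⟨1, fun _ => 1, Module.finBasisOfFinrankEq _ _ hfr, one_ne_zero, ?_, fun t => one_pow _, fun t => ?_⟩
  · intro t t' _
    apply Fin.ext
    have := t.2
    have := t'.2
    omega
  · have hid : galP l h1 i = LinearMap.id := LinearMap.ext fun v => (h2 i).2.1 h1 v
    rw [hid, bs, LinearMap.baseChange_id, LinearMap.id_apply, one_smul]

end

end Pool.Agent.TI
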